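import Mathlib
import Pool.Agent.H812.Gi.Spec
import Pool.Graph.R_seed8.W216.Stu.Hyp

/-!
# Stages one and two of a leaf: `GCa`, `GCb`
-/

set_option autoImplicit false

open Real Filter Topology Set MeasureTheory
open scoped ContDiff ENNReal

namespace Pool.Agent.H400.Gi

open Pool.Agent.W811.Stu Pool.Agent.H812.Tm Pool.Agent.W811.Dos Pool.Agent.H812.Gi

lemma cos_arccos' {z : ℝ} (hz : |z| < 1) : cos (arccos z) = z :=
  cos_arccos (abs_lt.1 hz).1.le (abs_lt.1 hz).2.le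

lemma ze_eq (δ : ℝ) {z : ℝ} (ϑ : ℝ) (hz : |z| < 1) :
    ze δ (z, ϑ) = ⟨z, Bf δ z * cos ϑ, Bf δ z * cos (ϑ - arccos z)⟩ := by
  unfold ze
  simp only
  rw [cos_sub, cos_arccos' hz, sin_arccos]
  congr 1
  ring

lemma bR_iter_cos (B φ ϑ : ℝ) (k : ℕ) :
    bR^[k] ⟨B * cos ϑ, cos φ, B * cos (ϑ - φ)⟩ =
      ⟨B * cos (ϑ + k * φ), cos φ, B * cos (ϑ + k * φ - φ)⟩ := by
  induction k with
  | zero => simp
  | succ k ih =>
    rw [Function.iterate_succ_apply', ih]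
    unfold bR
    simp only
    have h1 : ϑ + ((k + 1 : ℕ) : ℝ) * φ = (ϑ + k * φ) + φ := by push_cast; ring
    rw [h1, add_sub_cancel_right]
    generalize ϑ + (k : ℝ) * φ = a
    rw [cos_sub, cos_add]
    congr 1
    ring

lemma bT_ze (δ : ℝ) {z : ℝ} (ϑ : ℝ) (hz : |z| < 1) (b : ℕ) :
    bT b (ze δ (z, ϑ)) = ⟨Bf δ z * cos (ϑ + b * arccos z), z,
      Bf δ z * cos (ϑ + b * arccos z - arccos z)⟩ := by
  rw [ze_eq δ ϑ hz]
  unfold bT stepS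
  simp only
  have h := bR_iter_cos (Bf δ z) (arccos z) ϑ b
  rw [cos_arccos' hz] at h
  exact h

lemma borb_one_z (δ : ℝ) (d : ℕ → ℕ) {z : ℝ} (ϑ : ℝ) (hz : |z| < 1) :
    (borb d 1 (ze δ (z, ϑ))).z = Bf δ z * cos (ϑ + d 0 * arccos z) := by
  have : borb d 1 (ze δ (z, ϑ)) = bT (d 0) (ze δ (z, ϑ)) := rfl
  rw [this, bT_ze δ ϑ hz]

lemma borb_two_z (δ : ℝ) (d : ℕ → ℕ) (h1 : d 0 = 1) {z : ℝ} (ϑ : ℝ) (hz : |z| < 1) :
    (borb d 2 (ze δ (z, ϑ))).z = Bf δ z * cos (ϑ + (d 1 + 1 : ℕ) * arccos z) := by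
  have h : borb d 2 (ze δ (z, ϑ)) = bT (d 0) (bT (d 1) (ze δ (z, ϑ))) := rfl
  rw [h, bT_ze δ ϑ hz, h1]
  unfold bT stepS
  simp only [Function.iterate_one]
  unfold bR
  simp only
  have h1 : ϑ + ((d 1 + 1 : ℕ) : ℝ) * arccos z = (ϑ + d 1 * arccos z) + arccos z := by
    push_cast; ring
  rw [h1]
  generalize ϑ + (d 1 : ℝ) * arccos z = a
  rw [cos_add, cos_sub, cos_arccos' hz]
  ring

/-- intermediate values of the phase -/
lemma phase_ivt {ψ : ℝ → ℝ} (hψ : ContinuousOn ψ (Ioo (-1) 1)) {k m : ℤ} (n : ℕ)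
    (h1 : Tendsto ψ (𝓝[<] 1) (𝓝 (π / 2 + k * π)))
    (h2 : Tendsto ψ (𝓝[>] (-1)) (𝓝 (π / 2 + m * π))) (hkm : k + 2 ≤ m + n) :
    ∃ z, |z| < 1 ∧ ψ z + n * arccos z = π / 2 + (k + 1 : ℤ) * π := by
  have hc : ContinuousOn (fun z => ψ z + n * arccos z) (Ioo (-1) 1) :=
    hψ.add (continuous_const.mul continuous_arccos).continuousOn
  have ha1 : Tendsto (fun z : ℝ => (n : ℝ) * arccos z) (𝓝[<] 1) (𝓝 (n * arccos 1)) :=
    ((continuous_const.mul continuous_arccos).tendsto 1).mono_left nhdsWithin_le_nhds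
  have ha2 : Tendsto (fun z : ℝ => (n : ℝ) * arccos z) (𝓝[>] (-1)) (𝓝 (n * arccos (-1))) :=
    ((continuous_const.mul continuous_arccos).tendsto (-1)).mono_left nhdsWithin_le_nhds
  rw [arccos_one, mul_zero] at ha1
  rw [arccos_neg_one] at ha2
  have t1 := h1.add ha1
  have t2 := h2.add ha2
  have hs : IsPreconnected (Ioo (-1 : ℝ) 1) := isPreconnected_Ioo
  have hl1 : 𝓝[<] (1 : ℝ) ≤ 𝓟 (Ioo (-1) 1) := le_principal_iff.2 (Ioo_mem_nhdsLT (by norm_num))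
  have hl2 : 𝓝[>] (-1 : ℝ) ≤ 𝓟 (Ioo (-1) 1) := le_principal_iff.2 (Ioo_mem_nhdsGT (by norm_num))
  have hsub := hs.intermediate_value_Ioo hl1 hl2 hc t1 t2
  have hkm' : ((k : ℝ) + 2) ≤ m + n := by exact_mod_cast hkm
  have hmem : π / 2 + ((k + 1 : ℤ) : ℝ) * π ∈
      Ioo (π / 2 + k * π + 0) (π / 2 + m * π + n * π) := by
    push_cast
    constructor
    · nlinarith [pi_pos]
    · nlinarith [pi_pos]
  obtain ⟨z, hz, hz2⟩ := hsub hmem
  exact ⟨z, abs_lt.2 hz, hz2⟩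

lemma cos_level (j : ℤ) : cos (π / 2 + j * π) = 0 := by
  rw [cos_eq_zero_iff]
  exact ⟨j, by ring⟩

lemma Leaf.cont {θ : ℝ → ℝ} {δ : ℝ} {d : ℕ → ℕ} {ψ : ℝ → ℝ} (h : Leaf θ δ d ψ) :
    ContinuousOn ψ (Ioo (-1) 1) := fun z hz =>
  (h z (abs_lt.2 hz)).1.continuousAt.continuousWithinAt

lemma Cx.shift {δ κ : ℝ} {θ : ℝ → ℝ} {d : ℕ → ℕ} (h : Cx δ κ θ d) (n : ℕ) :
    Cx δ κ θ (shd d n) := ⟨h.hδ, h.hκ1, h.hκ, h.hθ, fun _ => h.hd _⟩

/-- **Stage two.** -/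
theorem tGCb (hW : GWind) : GCb := by
  intro δ κ θ d hC h1 ψ hψ
  obtain ⟨k, m, hkm, ht1, ht2⟩ := hW δ κ θ (shd d 2) (Cx.shift hC 2) ψ hψ
  have hd := hC.hd 1
  obtain ⟨z, hz, he⟩ := phase_ivt (Leaf.cont hψ) (d 1 + 1) ht1 ht2 (by push_cast; omega)
  refine ⟨z, hz, ?_⟩
  rw [borb_two_z δ d h1 _ hz, he, cos_level, mul_zero]

/-- alive points with `|y| > 1` have `|x| ≤ 1` -/
lemma x_le_one {δ : ℝ} (hδ : δ ≠ 0) {d : ℕ → ℕ} (hd : 1 ≤ d 0) {p : P3} (hS : OnS δ p)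
    (hz : |p.z| ≤ 1) (ha : Alive d p) (hy : 1 < |p.y|) : |p.x| ≤ 1 := by
  obtain ⟨K, hK⟩ := Pool.Agent.W216.Stu.Hyp.hyp δ 1 0 hδ (by norm_num) (cc_pos δ)
  rcases ha 0 with h | h
  · exact absurd h (not_le.2 hy)
  · have h2 : |(stepR^[d 0] p).z| ≤ 1 := h
    have h3 := (hK p (d 0) hS hy hz h2).1 1 hd
    exact h3

lemma const_contra (hD : SDt) (hT : GTv) {δ κ : ℝ} {θ : ℝ → ℝ} {d : ℕ → ℕ} (hC : Cx δ κ θ d)
    {ψ : ℝ → ℝ} (hψ : Leaf θ δ d ψ) {τ z0 : ℝ} (hz0 : |z0| < 1)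
    (h : ∀ᶠ z in 𝓝 z0, Yf δ d 0 (z, ψ z) = τ) (hτ : |τ| ≤ 1) : False := by
  have hU : (z0, ψ z0) ∈ U := hz0
  have hUo : IsOpen U := isOpen_lt continuous_fst.abs continuous_const
  have h0 : shd d 0 = d := by funext k; simp [shd]
  have hval : Yf δ d 0 (z0, ψ z0) = τ := h.self_of_nhds
  have hfun : (fun w => (orb d (borb d 0 (ze δ w)) 1).z) = Yf δ d 0 := by
    funext w
    exact orb_succ_z d (ze δ w) 0
  have hz1 : |(orb d (borb d 0 (ze δ (z0, ψ z0))) 1).z| ≤ 1 := by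
    have : (orb d (borb d 0 (ze δ (z0, ψ z0))) 1).z = Yf δ d 0 (z0, ψ z0) :=
      congrFun hfun (z0, ψ z0)
    rw [this, hval]; exact hτ
  have hat : At δ d 0 (z0, ψ z0) := ⟨hU, by rw [h0]; exact (hψ z0 hz0).2⟩
  have key := hT δ κ θ d hC 0 1 (z0, ψ z0) hat hz1
  rw [hfun, h0] at key
  apply key
  have hf : HasFDerivAt (Yf δ d 0) (fderiv ℝ (Yf δ d 0) (z0, ψ z0)) (z0, ψ z0) :=
    (((hD δ d 0).1.contDiffAt (hUo.mem_nhds hU)).differentiableAt (by simp)).hasFDerivAt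
  have hc : HasDerivAt (fun z => (z, ψ z)) ((1 : ℝ), sg θ δ d (z0, ψ z0)) z0 :=
    (hasDerivAt_id z0).prodMk (hψ z0 hz0).1
  have hcomp : HasDerivAt (fun z => Yf δ d 0 (z, ψ z))
      (fderiv ℝ (Yf δ d 0) (z0, ψ z0) (1, sg θ δ d (z0, ψ z0))) z0 :=
    HasFDerivAt.comp_hasDerivAt (f := fun z => (z, ψ z)) z0 hf hc
  have hconst : HasDerivAt (fun z => Yf δ d 0 (z, ψ z)) 0 z0 :=
    (hasDerivAt_const z0 τ).congr_of_eventuallyEq h
  exact hcomp.unique hconst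

/-- near an end of the leaf `|x| > 1` -/
lemma x_gt_one {δ : ℝ} (hδ : δ ≠ 0) {ψ : ℝ → ℝ} {l : Filter ℝ} {e τ L : ℝ}
    (he : e = 1 ∨ e = -1) (hl : Tendsto id l (𝓝 e)) (hl1 : ∀ᶠ z in l, |z| < 1)
    (hψ : Tendsto ψ l (𝓝 L)) (hτ : τ = 1 ∨ τ = -1) (hes : e * τ * sin L = 1)
    (hy : ∀ z, |z| < 1 → 1 ≤ τ * (ze δ (z, ψ z)).y) :
    ∀ᶠ z in l, 1 < |(ze δ (z, ψ z)).x| := by
  have he2 : e ^ 2 = 1 := by rcases he with h | h <;> rw [h] <;> norm_num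
  have hlz : Tendsto (fun z : ℝ => z) l (𝓝 e) := hl
  have t1 : Tendsto (fun z => e * z + √(1 + δ ^ 2 - z ^ 2) * (e * τ * sin (ψ z))) l
      (𝓝 (e * e + √(1 + δ ^ 2 - e ^ 2) * (e * τ * sin L))) := by
    refine (hlz.const_mul e).add (Tendsto.mul ?_ (((continuous_sin.tendsto L).comp hψ).const_mul _))
    exact (((tendsto_const_nhds).sub (hlz.pow 2))).sqrt
  have hlim : 1 < e * e + √(1 + δ ^ 2 - e ^ 2) * (e * τ * sin L) := by
    rw [hes, he2, mul_one]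
    have : 0 < √(1 + δ ^ 2 - 1) := Real.sqrt_pos.2 (by have : 0 < δ ^ 2 := by positivity
                                                       linarith)
    nlinarith
  have hez : Tendsto (fun z => e * z) l (𝓝 (e * e)) := hlz.const_mul e
  have hee : 0 < e * e := by nlinarith
  filter_upwards [t1.eventually (lt_mem_nhds hlim), hez.eventually (lt_mem_nhds hee), hl1] with
    z h1 h2 h3
  have hy1 := hy z h3
  have hz2 : z ^ 2 < 1 := by
    have := abs_lt.1 h3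
    nlinarith
  have hB : Bf δ z * √(1 - z ^ 2) = √(1 + δ ^ 2 - z ^ 2) := by
    unfold Bf
    rw [← Real.sqrt_mul (div_nonneg (by nlinarith [sq_nonneg δ]) (by linarith)),
      div_mul_cancel₀ _ (by linarith)]
  have hx : (ze δ (z, ψ z)).x = z * (ze δ (z, ψ z)).y + √(1 + δ ^ 2 - z ^ 2) * sin (ψ z) := by
    rw [← hB]; unfold ze; simp only; ring
  have hxe : 1 < (e * τ) * (ze δ (z, ψ z)).x := by
    rw [hx]
    have : e * z * 1 ≤ e * z * (τ * (ze δ (z, ψ z)).y) :=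
      mul_le_mul_of_nonneg_left hy1 h2.le
    nlinarith
  have habs : |e * τ| = 1 := by
    rcases he with h | h <;> rcases hτ with h' | h' <;> rw [h, h'] <;> norm_num
  calc 1 < (e * τ) * (ze δ (z, ψ z)).x := hxe
    _ ≤ |(e * τ) * (ze δ (z, ψ z)).x| := le_abs_self _
    _ = |(ze δ (z, ψ z)).x| := by rw [abs_mul, habs, one_mul]

/-- **Stage one.** -/
theorem tGCa (hW : GWind) (hT : GTv) (hS : SCoord) (hD : SDt) : GCa := by
  intro δ κ θ d hC ψ hψ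
  by_contra hcon
  push Not at hcon
  obtain ⟨hA, hB⟩ := hcon
  have hC' := Cx.shift hC 1
  obtain ⟨k, m, hkm, ht1, ht2⟩ := hW δ κ θ (shd d 1) hC' ψ hψ
  have hlt : m + (d 0 : ℤ) < k + 2 := by
    by_contra h
    obtain ⟨z, hz, he⟩ := phase_ivt (Leaf.cont hψ) (d 0) ht1 ht2 (by omega)
    have := hA z hz
    rw [borb_one_z δ d _ hz, he, cos_level, mul_zero, abs_zero] at this
    linarith
  have hd0 := hC.hd 0
  have hd1 : d 0 = 1 := by omega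
  have hmk : m = k := by omega
  subst hmk
  have hB' := hB hd1
  -- sign of `y`
  have hyc : ContinuousOn (fun z => Yf δ (shd d 1) 0 (z, ψ z)) (Ioo (-1) 1) := by
    refine (hD δ (shd d 1) 0).1.continuousOn.comp
      (continuousOn_id.prodMk (Leaf.cont hψ)) ?_
    intro z hz
    exact abs_lt.2 hz
  have hsign : ∃ τ : ℝ, (τ = 1 ∨ τ = -1) ∧ ∀ z, |z| < 1 → 1 ≤ τ * Yf δ (shd d 1) 0 (z, ψ z) := by
    have h0 := hB' 0 (by norm_num)
    have hpre : IsPreconnected (Ioo (-1 : ℝ) 1) := isPreconnected_Ioo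
    have h0mem : (0 : ℝ) ∈ Ioo (-1 : ℝ) 1 := by constructor <;> norm_num
    rcases le_or_gt 0 (Yf δ (shd d 1) 0 (0, ψ 0)) with hs | hs
    · refine ⟨1, Or.inl rfl, fun z hz => ?_⟩
      rw [one_mul]
      by_contra hc
      have hz1 := hB' z hz
      have hneg : Yf δ (shd d 1) 0 (z, ψ z) < 0 := by
        by_contra hcc
        rw [abs_of_nonneg (not_lt.1 hcc)] at hz1
        exact hc hz1
      obtain ⟨w, hw, hw0⟩ := hpre.intermediate_value (abs_lt.1 hz) h0mem hyc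
        (show (0 : ℝ) ∈ Icc _ _ from ⟨hneg.le, hs⟩)
      have := hB' w (abs_lt.2 hw)
      simp only at hw0
      rw [hw0, abs_zero] at this
      linarith
    · refine ⟨-1, Or.inr rfl, fun z hz => ?_⟩
      by_contra hc
      have hz1 := hB' z hz
      have hpos : 0 < Yf δ (shd d 1) 0 (z, ψ z) := by
        by_contra hcc
        rw [abs_of_nonpos (not_lt.1 hcc)] at hz1
        apply hc; linarith
      obtain ⟨w, hw, hw0⟩ := hpre.intermediate_value h0mem (abs_lt.1 hz) hyc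
        (show (0 : ℝ) ∈ Icc _ _ from ⟨hs.le, hpos.le⟩)
      have := hB' w (abs_lt.2 hw)
      simp only at hw0
      rw [hw0, abs_zero] at this
      linarith
  obtain ⟨τ, hτ, hy⟩ := hsign
  have hτ2 : τ * τ = 1 := by rcases hτ with h | h <;> rw [h] <;> norm_num
  have hτabs : |τ| = 1 := by rcases hτ with h | h <;> rw [h] <;> norm_num
  -- `|x| > 1` implies `y = τ`
  have hyx : ∀ z, |z| < 1 → 1 < |(ze δ (z, ψ z)).x| → Yf δ (shd d 1) 0 (z, ψ z) = τ := by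
    intro z hz hx
    have h1 : ¬ 1 < |(ze δ (z, ψ z)).y| := fun h =>
      absurd (x_le_one hC.hδ (hC'.hd 0) (hS δ |>.1 (z, ψ z) hz) (show |z| ≤ 1 from hz.le)
        (hψ z hz).2 h) (not_le.2 hx)
    have h2 : |Yf δ (shd d 1) 0 (z, ψ z)| ≤ 1 := not_lt.1 h1
    have h3 := hy z hz
    have h4 : τ * Yf δ (shd d 1) 0 (z, ψ z) ≤ 1 := by
      calc τ * Yf δ (shd d 1) 0 (z, ψ z) ≤ |τ * Yf δ (shd d 1) 0 (z, ψ z)| := le_abs_self _
        _ = |Yf δ (shd d 1) 0 (z, ψ z)| := by rw [abs_mul, hτabs, one_mul]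
        _ ≤ 1 := h2
    have h5 : τ * Yf δ (shd d 1) 0 (z, ψ z) = 1 := le_antisymm h4 h3
    calc Yf δ (shd d 1) 0 (z, ψ z) = (τ * τ) * Yf δ (shd d 1) 0 (z, ψ z) := by rw [hτ2, one_mul]
      _ = τ * (τ * Yf δ (shd d 1) 0 (z, ψ z)) := by ring
      _ = τ := by rw [h5, mul_one]
  have fin : ∀ (s : Set ℝ) (e : ℝ), IsOpen s → (𝓝[s] e).NeBot →
      (∀ᶠ z in 𝓝[s] e, Yf δ (shd d 1) 0 (z, ψ z) = τ) → (∀ᶠ z in 𝓝[s] e, |z| < 1) → False := by
    intro s e hs hne h1 h2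
    have h3 : ∀ᶠ z in 𝓝[s] e, ∀ᶠ w in 𝓝[s] z, Yf δ (shd d 1) 0 (w, ψ w) = τ :=
      eventually_eventually_nhdsWithin.2 h1
    have h4 : ∀ᶠ z in 𝓝[s] e, z ∈ s := self_mem_nhdsWithin
    obtain ⟨z, ⟨hz1, hz2⟩, hz3⟩ := ((h3.and h2).and h4).exists
    rw [hs.nhdsWithin_eq hz3] at hz1
    exact const_contra hD hT hC' hψ hz2 hz1 hτabs.le
  have hsin : sin (π / 2 + m * π) ^ 2 = 1 := by
    have := sin_sq_add_cos_sq (π / 2 + m * π)
    rw [cos_level] at this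
    linarith
  have hsin' : τ * sin (π / 2 + m * π) = 1 ∨ τ * sin (π / 2 + m * π) = -1 := by
    have : (τ * sin (π / 2 + m * π) - 1) * (τ * sin (π / 2 + m * π) + 1) = 0 := by
      have : (τ * sin (π / 2 + m * π) - 1) * (τ * sin (π / 2 + m * π) + 1) =
        (τ * τ) * sin (π / 2 + m * π) ^ 2 - 1 := by ring
      rw [this, hτ2, hsin]; norm_num
    rcases mul_eq_zero.1 this with h | h
    · left; linarith
    · right; linarith
  rcases hsin' with h | h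
  · have hl1 : ∀ᶠ z in 𝓝[<] (1 : ℝ), |z| < 1 := by
      filter_upwards [Ioo_mem_nhdsLT (show (-1 : ℝ) < 1 by norm_num)] with z hz
      exact abs_lt.2 hz
    have hx := x_gt_one hC.hδ (e := 1) (Or.inl rfl)
      (tendsto_id.mono_left nhdsWithin_le_nhds) hl1 ht1 hτ (by rw [one_mul]; exact h) hy
    refine fin (Iio 1) 1 isOpen_Iio inferInstance ?_ hl1
    filter_upwards [hx, hl1] with z h1 h2
    exact hyx z h2 h1
  · have hl1 : ∀ᶠ z in 𝓝[>] (-1 : ℝ), |z| < 1 := by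
      filter_upwards [Ioo_mem_nhdsGT (show (-1 : ℝ) < 1 by norm_num)] with z hz
      exact abs_lt.2 hz
    have hx := x_gt_one hC.hδ (e := -1) (Or.inr rfl)
      (tendsto_id.mono_left nhdsWithin_le_nhds) hl1 ht2 hτ (by linarith) hy
    refine fin (Ioi (-1)) (-1) isOpen_Ioi inferInstance ?_ hl1
    filter_upwards [hx, hl1] with z h1 h2
    exact hyx z h2 h1

end Pool.Agent.H400.Gi
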